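import Pool.Agent.N113.SK.Rz
import Pool.Agent.H248R6.Der
import Pool.Agent.H248R5.Bert

/-!
# The Schanuel type statement is equivalent to the statement on linear relations
-/

set_option autoImplicit false

namespace Pool.Agent.N113.SK

open UpperHalfPlane MvPolynomial Module

variable {f : ℍ → ℂ}

/-- the statement on linear relations -/
def LIN (f : ℍ → ℂ) : Prop := ∀ (ι : Type) [Fintype ι] (z : ι → ℍ) (s : Finset ι),
  (∀ i ∈ s, ¬ CM (z i)) → (∀ i ∈ s, ∀ k ∈ s, i ≠ k → ¬ Eqv (z i) (z k)) →
    s.card ≤ finrank ℂ (Der f z)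

/-- the statement on transcendence degrees -/
def SCH (f : ℍ → ℂ) : Prop := ∀ (n : ℕ) (z : Fin n → ℍ),
  (∀ i, ¬ CM (z i)) → (∀ i k, i ≠ k → ¬ Eqv (z i) (z k)) →
    ∃ w : Fin n → ℂ, (∀ m, ∃ x, w m = co f z x) ∧ AlgebraicIndependent ℚ w

theorem rk_le (hL : LIN f) (C : Tup) : rk C ≤ finrank ℂ (Der f C.z) := by
  classical
  let T := (cls_finite C).toFinset
  have hT : rk C = T.card := Set.ncard_eq_toFinset_card _ (cls_finite C)
  have h1 : ∀ c : T, ∃ i, ¬ CM (C.z i) ∧ (c : Quotient eqvSetoid) = ⟦C.z i⟧ := fun c =>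
    (cls_finite C).mem_toFinset.1 c.2
  choose g hg hg' using h1
  have hgi : Function.Injective g := by
    intro c d h
    apply Subtype.ext
    rw [hg', hg', h]
  have h2 := hL C.κ C.z (Finset.univ.image g) (by
    intro i hi
    obtain ⟨c, -, rfl⟩ := Finset.mem_image.1 hi
    exact hg c) (by
    intro i hi k hk hik he
    obtain ⟨c, -, rfl⟩ := Finset.mem_image.1 hi
    obtain ⟨d, -, rfl⟩ := Finset.mem_image.1 hk
    apply hik
    have h3 : c = d := by
      apply Subtype.ext
      rw [hg', hg']
      exact Quotient.sound he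
    rw [h3])
  rw [Finset.card_image_of_injective _ hgi, Finset.card_univ, Fintype.card_coe] at h2
  rw [hT]
  exact h2

theorem rk_fin {n : ℕ} (z : Fin n → ℍ) (h1 : ∀ i, ¬ CM (z i))
    (h2 : ∀ i k, i ≠ k → ¬ Eqv (z i) (z k)) : rk ⟨Fin n, z⟩ = n := by
  have h3 : cls ⟨Fin n, z⟩ = Set.range fun i => (⟦z i⟧ : Quotient eqvSetoid) := by
    ext c
    constructor
    · rintro ⟨i, -, rfl⟩
      exact ⟨i, rfl⟩
    · rintro ⟨i, rfl⟩
      exact ⟨i, h1 i, rfl⟩
  rw [rk, h3, Set.ncard_range_of_injective, Nat.card_eq_fintype_card, Fintype.card_fin]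
  intro i k h
  by_contra hik
  exact h2 i k hik (Quotient.exact h)

/-- a maximal independent subset and separating relations -/
theorem exists_basis {κ : Type} [Fintype κ] (p : κ → ℂ) :
    ∃ (s : Finset κ) (P : κ → MvPolynomial κ ℚ), AlgebraicIndependent ℚ (fun i : s => p i) ∧
      (∀ x ∉ s, aeval p (P x) = 0 ∧ aeval p (pderiv x (P x)) ≠ 0 ∧
        ∀ y ∉ s, y ≠ x → pderiv y (P x) = 0) := by
  classical
  let S : Finset (Finset κ) :=
    Finset.univ.filter fun s => AlgebraicIndependent ℚ (fun i : s => p i)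
  have hS : S.Nonempty := ⟨∅, by
    rw [Finset.mem_filter]
    refine ⟨Finset.mem_univ _, ?_⟩
    have : IsEmpty (∅ : Finset κ) := ⟨fun x => Finset.notMem_empty _ x.2⟩
    exact algebraicIndependent_empty_type⟩
  obtain ⟨s, hs, hmax⟩ := S.exists_max_image Finset.card hS
  have hs1 : AlgebraicIndependent ℚ (fun i : s => p i) := (Finset.mem_filter.1 hs).2
  have h1 : ∀ x, ∃ P : MvPolynomial κ ℚ, x ∉ s → aeval p P = 0 ∧ aeval p (pderiv x P) ≠ 0 ∧
      ∀ y ∉ s, y ≠ x → pderiv y P = 0 := by
    intro x
    by_cases hx : x ∈ s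
    · exact ⟨0, fun h => absurd hx h⟩
    · have h2 : IsAlgebraic (Algebra.adjoin ℚ (Set.range fun i : s => p i)) (p x) := by
        by_contra h3
        have h4 : AlgebraicIndependent ℚ fun o : Option s => o.elim (p x) fun i : s => p i :=
          (hs1.option_iff_transcendental (p x)).2 h3
        let φ : ↥(insert x s) → Option s := fun i => if h : i.1 ∈ s then some ⟨i, h⟩ else none
        have hφ1 : ∀ i : ↥(insert x s), i.1 ∉ s → i.1 = x := fun i hi =>
          (Finset.mem_insert.1 i.2).resolve_right hi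
        have hφ : Function.Injective φ := by
          intro i k hik
          apply Subtype.ext
          by_cases hi : i.1 ∈ s
          · by_cases hk : k.1 ∈ s
            · simp only [φ, dif_pos hi, dif_pos hk, Option.some.injEq, Subtype.mk.injEq] at hik
              exact hik
            · simp only [φ, dif_pos hi, dif_neg hk] at hik
              exact absurd hik (by simp)
          · by_cases hk : k.1 ∈ s
            · simp only [φ, dif_neg hi, dif_pos hk] at hik
              exact absurd hik (by simp)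
            · rw [hφ1 i hi, hφ1 k hk]
        have h5 := h4.comp φ hφ
        have h6 : ((fun o : Option s => o.elim (p x) fun i : s => p i) ∘ φ) =
            fun i : ↥(insert x s) => p i := by
          funext i
          by_cases hi : i.1 ∈ s
          · simp only [Function.comp_apply, φ, dif_pos hi, Option.elim_some]
          · simp only [Function.comp_apply, φ, dif_neg hi, Option.elim_none]
            rw [hφ1 i hi]
        rw [h6] at h5
        have h7 := hmax (insert x s) (Finset.mem_filter.2 ⟨Finset.mem_univ _, h5⟩)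
        rw [Finset.card_insert_of_notMem hx] at h7
        omega
      obtain ⟨P, hP, hP'⟩ := sep (fun i : s => p i) (p x) h2
      let e : Option s → κ := fun o => o.elim x fun i => i
      have he : Function.Injective e := by
        rintro (_ | i) (_ | k) h
        · rfl
        · exact absurd k.2 (by rw [show (k : κ) = x from h.symm]; exact hx)
        · exact absurd i.2 (by rw [show (i : κ) = x from h]; exact hx)
        · exact congrArg some (Subtype.ext h)
      have hpe : p ∘ e = fun o : Option s => o.elim (p x) fun i : s => p i := by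
        funext o
        rcases o with _ | i <;> rfl
      refine ⟨rename e P, fun _ => ⟨by rw [aeval_rename, hpe]; exact hP, ?_, ?_⟩⟩
      · have h8 : pderiv x (rename e P) = rename e (pderiv none P) := pderiv_rename he none P
        rw [h8, aeval_rename, hpe]
        exact hP'
      · intro y hy hyx
        refine pderiv_eq_zero_of_notMem_vars fun h9 => ?_
        obtain ⟨o, -, h10⟩ := Finset.mem_image.1 (vars_rename e P h9)
        rcases o with _ | i
        · exact hyx h10.symm
        · exact hy (by rw [← h10]; exact i.2)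
  choose P hP using h1
  exact ⟨s, P, hs1, hP⟩

/-- **Linear relations suffice**, for a fixed tuple and its extensions. -/
theorem exists_indep (hf : Fn f) (A : Tup) (d : ℤ)
    (hL : ∀ C, Ext f A C → (rk C : ℤ) + d ≤ finrank ℂ (Der f C.z)) :
    ∃ s : Finset (A.κ ⊕ A.κ), AlgebraicIndependent ℚ (fun i : s => co f A.z i) ∧
      (rk A : ℤ) + d ≤ s.card := by
  classical
  obtain ⟨s, P, hs, hP⟩ := exists_basis (co f A.z)
  obtain ⟨C, hC, h3⟩ := Rz.polys hf A Finset.univ P
  obtain ⟨g, hg, h4⟩ := id hC
  let L : Der f C.z →ₗ[ℂ] (s → ℂ) :=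
    (LinearMap.funLeft ℂ ℂ (fun i : s => Sum.map g g (i : A.κ ⊕ A.κ))).domRestrict (Der f C.z)
  have h5 := L.finrank_range_add_finrank_ker
  have h6 : finrank ℂ (LinearMap.range L) ≤ s.card :=
    (Submodule.finrank_le _).trans (by rw [finrank_pi, Fintype.card_coe])
  have h7 : finrank ℂ (LinearMap.ker L) ≤ finrank ℂ (Ker f C g) := by
    rw [← Submodule.finrank_map_subtype_eq]
    refine Submodule.finrank_mono ?_
    rintro _ ⟨v, hv, rfl⟩
    obtain ⟨D, hD, hvD⟩ := v.2
    refine (mem_Ker f hg _).2 ⟨D, hD, hvD, fun x => ?_⟩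
    have h8 : ∀ y ∈ s, D (co f A.z y) = 0 := by
      intro y hy
      have h9 := congrFun (LinearMap.mem_ker.1 hv) ⟨y, hy⟩
      change (v : C.κ ⊕ C.κ → ℂ) (Sum.map g g y) = 0 at h9
      rw [hvD] at h9
      change D (co f C.z (Sum.map g g y)) = 0 at h9
      rw [co_comp f hg] at h9
      exact h9
    by_cases hx : x ∈ s
    · exact h8 x hx
    · obtain ⟨h9, h10, h11⟩ := hP x hx
      have h12 := h3 D hD x (Finset.mem_univ _)
      rw [h9, map_zero, Finset.sum_eq_single x] at h12
      · exact (mul_eq_zero.1 h12.symm).resolve_left h10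
      · intro y _ hyx
        by_cases hy : y ∈ s
        · rw [h8 y hy, mul_zero]
        · rw [h11 y hy hyx, map_zero, zero_mul]
      · intro h
        exact absurd (Finset.mem_univ _) h
  have h8 := hL C hC
  refine ⟨s, hs, ?_⟩
  omega

theorem sch_of_rk (hf : Fn f) (hL : ∀ C : Tup, rk C ≤ finrank ℂ (Der f C.z)) : SCH f := by
  intro n z hz1 hz2
  have h9 : rk ⟨Fin n, z⟩ = n := rk_fin z hz1 hz2
  obtain ⟨s, hs, h10⟩ := exists_indep hf ⟨Fin n, z⟩ 0 fun C _ => by
    rw [add_zero]
    exact_mod_cast hL C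
  rw [h9, add_zero] at h10
  obtain ⟨e⟩ := Function.Embedding.nonempty_of_card_le (α := Fin n) (β := s) (by
    rw [Fintype.card_fin, Fintype.card_coe]
    exact_mod_cast h10)
  exact ⟨fun i => co f z (e i), fun m => ⟨_, rfl⟩, hs.comp e e.injective⟩

theorem sch_of_lin (hf : Fn f) (hL : LIN f) : SCH f := sch_of_rk hf (rk_le hL)

/-- derivations are admissible -/
theorem der_adm {ι : Type} (z : ι → ℍ) (D : Derivation ℚ ℂ ℂ) : Adm f z D.toLinearMap := by
  have h1 : ∀ x y : ℂ, Respects D.toLinearMap x y := by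
    intro x y P hP
    have h2 := Pool.Agent.H248R5.derivation_aeval D ![x, y] P
    rw [hP, map_zero, Fin.sum_univ_two] at h2
    exact h2.symm
  exact ⟨D.map_one_eq_zero, fun _ _ _ => h1 _ _, fun _ _ _ => h1 _ _⟩

/-- algebraically independent coordinates give linearly independent vectors -/
theorem card_le_finrank {ι κ : Type} [Fintype ι] [Fintype κ] (z : ι → ℍ) (x : κ → ι ⊕ ι)
    (hx : AlgebraicIndependent ℚ fun i => co f z (x i)) :
    Fintype.card κ ≤ finrank ℂ (Der f z) := by
  classical
  choose D hD using fun i => Pool.Agent.H248R6.exists_der _ hx i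
  let b : κ → Der f z := fun i =>
    ⟨fun y => D i (co f z y), (D i).toLinearMap, der_adm z (D i), rfl⟩
  have hb : LinearIndependent ℂ b := by
    rw [Fintype.linearIndependent_iff]
    intro a ha k
    have h3 := congrFun (congrArg (fun v : Der f z => (v : ι ⊕ ι → ℂ)) ha) (x k)
    simp only [Submodule.coe_sum, Submodule.coe_smul, Finset.sum_apply, Pi.smul_apply,
      smul_eq_mul, b, Submodule.coe_zero, Pi.zero_apply] at h3
    rw [Finset.sum_eq_single k] at h3
    · rw [(hD k k).1 rfl, mul_one] at h3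
      exact h3
    · intro i _ hik
      rw [(hD i k).2 hik, mul_zero]
    · intro h
      exact absurd (Finset.mem_univ _) h
  exact hb.fintype_card_le_finrank

/-- The converse. -/
theorem lin_of_sch (hS : SCH f) : LIN f := by
  classical
  intro ι _ z s h1 h2
  let e := s.equivFin
  obtain ⟨w, hw, hw'⟩ := hS s.card (fun i => z (e.symm i)) (fun i => h1 _ (e.symm i).2)
    (fun i k hik => h2 _ (e.symm i).2 _ (e.symm k).2 fun h => hik
      (e.symm.injective (Subtype.ext h)))
  have hw2 : ∀ m, ∃ x, w m = co f z x := by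
    intro m
    obtain ⟨x | x, hx⟩ := hw m
    · exact ⟨Sum.inl (e.symm x), hx⟩
    · exact ⟨Sum.inr (e.symm x), hx⟩
  choose x hx using hw2
  have h3 : (fun i => co f z (x i)) = w := funext fun i => (hx i).symm
  have h4 := card_le_finrank z x (by rw [h3]; exact hw')
  rw [Fintype.card_fin] at h4
  exact h4

theorem sch_iff_lin (hf : Fn f) : SCH f ↔ LIN f := ⟨lin_of_sch, sch_of_lin hf⟩

/-- `B` contains the points of `A` -/
def Sub (A B : Tup) : Prop := ∃ g : A.κ → B.κ, ∀ i, B.z (g i) = A.z i

/-- **The local statement.** -/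
theorem local_iff (hf : Fn f) (A : Tup) (d : ℤ) :
    (∀ B, Sub A B → ∃ s : Finset (B.κ ⊕ B.κ),
      AlgebraicIndependent ℚ (fun i : s => co f B.z i) ∧ (rk B : ℤ) + d ≤ s.card) ↔
    (∀ B, Sub A B → (rk B : ℤ) + d ≤ finrank ℂ (Der f B.z)) := by
  constructor
  · intro h B hB
    obtain ⟨s, hs, h1⟩ := h B hB
    have h2 := card_le_finrank B.z (fun i : s => (i : B.κ ⊕ B.κ)) hs
    rw [Fintype.card_coe] at h2
    have h3 : (s.card : ℤ) ≤ finrank ℂ (Der f B.z) := by exact_mod_cast h2
    exact h1.trans h3
  · rintro h B ⟨g, hg⟩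
    refine exists_indep hf B d ?_
    rintro C ⟨g', hg', -⟩
    exact h C ⟨g' ∘ g, fun i => by rw [Function.comp_apply, hg', hg]⟩

end Pool.Agent.N113.SK
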