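import Mathlib

/-!
# Additive maps which respect the relations inside the orbits
-/

set_option autoImplicit false

namespace Pool.Agent.N113.SK

open UpperHalfPlane MvPolynomial

/-- Equivalence under `GL₂⁺(ℚ)`: `w = (a z + b) / (c z + d)`. -/
def Eqv (z w : ℍ) : Prop :=
  ∃ a b c d : ℚ, 0 < a * d - b * c ∧ (w : ℂ) * (c * z + d) = a * z + b

/-- CM points. -/
def CM (z : ℍ) : Prop :=
  ∃ a b c : ℤ, (a ≠ 0 ∨ b ≠ 0 ∨ c ≠ 0) ∧ (a : ℂ) * (z : ℂ) ^ 2 + b * z + c = 0

/-- The additive map `D` satisfies the rules of differentiation for all the polynomial relations with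
rational coefficients between `x` and `y`. -/
def Respects (D : ℂ →ₗ[ℚ] ℂ) (x y : ℂ) : Prop :=
  ∀ P : MvPolynomial (Fin 2) ℚ, aeval ![x, y] P = 0 →
    aeval ![x, y] (pderiv 0 P) * D x + aeval ![x, y] (pderiv 1 P) * D y = 0

/-- The additive map `D` vanishes at `1` and respects the relations between two equivalent points of
the tuple `z`, and between the values of `f` at two equivalent points. Nothing is required of points
in different orbits. -/
structure Adm (f : ℍ → ℂ) {ι : Type} (z : ι → ℍ) (D : ℂ →ₗ[ℚ] ℂ) : Prop where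
  one : D 1 = 0
  pts : ∀ i k, Eqv (z i) (z k) → Respects D (z i) (z k)
  vals : ∀ i k, Eqv (z i) (z k) → Respects D (f (z i)) (f (z k))

/-- The coordinates `z i` and `f (z i)`. -/
def co (f : ℍ → ℂ) {ι : Type} (z : ι → ℍ) : ι ⊕ ι → ℂ :=
  Sum.elim (fun i => (z i : ℂ)) (fun i => f (z i))

theorem Respects.add {D D' : ℂ →ₗ[ℚ] ℂ} {x y : ℂ} (h : Respects D x y) (h' : Respects D' x y) :
    Respects (D + D') x y := fun P hP => by
  rw [LinearMap.add_apply, LinearMap.add_apply]
  linear_combination h P hP + h' P hP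

theorem Respects.smul {D : ℂ →ₗ[ℚ] ℂ} {x y : ℂ} (h : Respects D x y) (c : ℂ) :
    Respects (c • D) x y := fun P hP => by
  rw [LinearMap.smul_apply, LinearMap.smul_apply, smul_eq_mul, smul_eq_mul]
  linear_combination c * h P hP

theorem Respects.zero {x y : ℂ} : Respects 0 x y := fun P hP => by simp

/-- The space of the vectors `(D (z i), D (f (z i)))`. -/
def Der (f : ℍ → ℂ) {ι : Type} (z : ι → ℍ) : Submodule ℂ (ι ⊕ ι → ℂ) where
  carrier := {v | ∃ D : ℂ →ₗ[ℚ] ℂ, Adm f z D ∧ v = fun x => D (co f z x)}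
  zero_mem' := ⟨0, ⟨rfl, fun _ _ _ => Respects.zero, fun _ _ _ => Respects.zero⟩, rfl⟩
  add_mem' := by
    rintro _ _ ⟨D, hD, rfl⟩ ⟨D', hD', rfl⟩
    exact ⟨D + D', ⟨by rw [LinearMap.add_apply, hD.one, hD'.one, add_zero],
      fun i k h => (hD.pts i k h).add (hD'.pts i k h),
      fun i k h => (hD.vals i k h).add (hD'.vals i k h)⟩, rfl⟩
  smul_mem' := by
    rintro c _ ⟨D, hD, rfl⟩
    exact ⟨c • D, ⟨by rw [LinearMap.smul_apply, hD.one, smul_zero],
      fun i k h => (hD.pts i k h).smul c, fun i k h => (hD.vals i k h).smul c⟩, rfl⟩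

end Pool.Agent.N113.SK
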