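import Mathlib

/-!
# Separating polynomials of algebraic elements
-/

set_option autoImplicit false

namespace Pool.Agent.N113.SK

open MvPolynomial

variable {τ : Type}

/-- a polynomial in one more variable -/
noncomputable def joinV : Polynomial (MvPolynomial τ ℚ) →+* MvPolynomial (Option τ) ℚ :=
  Polynomial.eval₂RingHom (rename (some : τ → Option τ)).toRingHom (X none)

theorem joinV_C (a : MvPolynomial τ ℚ) : joinV (Polynomial.C a) = rename some a := by
  simp [joinV]

theorem joinV_X : joinV (Polynomial.X : Polynomial (MvPolynomial τ ℚ)) = X none := by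
  simp [joinV]

theorem pderiv_rename_some (a : MvPolynomial τ ℚ) :
    pderiv none (rename (some : τ → Option τ) a) = 0 := by
  classical
  induction a using MvPolynomial.induction_on with
  | C c => simp
  | add p q hp hq => rw [map_add, map_add, hp, hq, add_zero]
  | mul_X p i hp =>
    rw [map_mul, rename_X, pderiv_mul, hp, pderiv_X, Pi.single_eq_of_ne (by simp)]
    simp

theorem pderiv_joinV (Q : Polynomial (MvPolynomial τ ℚ)) :
    pderiv none (joinV Q) = joinV (Polynomial.derivative Q) := by
  induction Q using Polynomial.induction_on' with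
  | add p q hp hq => simp only [map_add, hp, hq]
  | monomial n a =>
    rw [← Polynomial.C_mul_X_pow_eq_monomial, map_mul, map_pow, joinV_C, joinV_X, pderiv_mul,
      pderiv_rename_some, zero_mul, zero_add, pderiv_pow, pderiv_X_self,
      Polynomial.derivative_C_mul_X_pow, map_mul, map_pow, joinV_C, joinV_X, map_mul, mul_one]
    simp only [map_natCast]
    ring

theorem aeval_joinV (y : τ → ℂ) (x : ℂ) (Q : Polynomial (MvPolynomial τ ℚ)) :
    aeval (fun o : Option τ => o.elim x y) (joinV Q) =
      (Q.map (aeval y : MvPolynomial τ ℚ →ₐ[ℚ] ℂ).toRingHom).eval x := by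
  induction Q using Polynomial.induction_on' with
  | add p q hp hq => simp only [map_add, hp, hq, Polynomial.map_add, Polynomial.eval_add]
  | monomial n a =>
    rw [← Polynomial.C_mul_X_pow_eq_monomial, map_mul, map_pow, joinV_C, joinV_X, map_mul, map_pow,
      aeval_X, aeval_rename]
    simp only [Polynomial.map_mul, Polynomial.map_C, Polynomial.map_pow, Polynomial.map_X,
      Polynomial.eval_mul, Polynomial.eval_C, Polynomial.eval_pow, Polynomial.eval_X]
    rfl

/-- an algebraic element satisfies a polynomial relation with nonvanishing partial derivative -/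
theorem sep (y : τ → ℂ) (x : ℂ) (h : IsAlgebraic (Algebra.adjoin ℚ (Set.range y)) x) :
    ∃ P : MvPolynomial (Option τ) ℚ, aeval (fun o : Option τ => o.elim x y) P = 0 ∧
      aeval (fun o : Option τ => o.elim x y) (pderiv none P) ≠ 0 := by
  classical
  let φ : MvPolynomial τ ℚ →+* ℂ := (aeval y : MvPolynomial τ ℚ →ₐ[ℚ] ℂ).toRingHom
  have h1 : ∃ n : ℕ, ∃ Q : Polynomial (MvPolynomial τ ℚ), Q.map φ ≠ 0 ∧ (Q.map φ).eval x = 0 ∧
      (Q.map φ).natDegree = n := by
    obtain ⟨p, hp, hpx⟩ := h
    have hr : Algebra.adjoin ℚ (Set.range y) = (aeval y : MvPolynomial τ ℚ →ₐ[ℚ] ℂ).range :=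
      Algebra.adjoin_range_eq_range_aeval ℚ y
    have hc : ∀ k : ℕ, ∃ a : MvPolynomial τ ℚ, φ a = (p.coeff k : ℂ) := by
      intro k
      have h2 : ((p.coeff k : Algebra.adjoin ℚ (Set.range y)) : ℂ) ∈
          (aeval y : MvPolynomial τ ℚ →ₐ[ℚ] ℂ).range := by
        rw [← hr]
        exact (p.coeff k).2
      obtain ⟨a, ha⟩ := h2
      exact ⟨a, ha⟩
    choose a ha using hc
    let Q : Polynomial (MvPolynomial τ ℚ) :=
      ∑ k ∈ Finset.range (p.natDegree + 1), Polynomial.monomial k (a k)
    have hQ : Q.map φ = p.map (algebraMap (Algebra.adjoin ℚ (Set.range y)) ℂ) := by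
      ext k
      rw [Polynomial.coeff_map, Polynomial.coeff_map, Polynomial.finsetSum_coeff]
      simp only [Polynomial.coeff_monomial]
      rw [Finset.sum_ite_eq' (Finset.range (p.natDegree + 1)) k a]
      by_cases hk : k ∈ Finset.range (p.natDegree + 1)
      · rw [if_pos hk, ha]
        rfl
      · rw [if_neg hk, map_zero, Polynomial.coeff_eq_zero_of_natDegree_lt, map_zero]
        rw [Finset.mem_range] at hk
        omega
    refine ⟨_, Q, ?_, ?_, rfl⟩
    · rw [hQ]
      exact (Polynomial.map_ne_zero_iff Subtype.val_injective).2 hp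
    · rw [hQ, Polynomial.eval_map]
      exact hpx
  obtain ⟨Q, hQ0, hQx, hQn⟩ := Nat.find_spec h1
  have hmin := fun m (hm : m < Nat.find h1) => Nat.find_min h1 hm
  refine ⟨joinV Q, by rw [aeval_joinV]; exact hQx, ?_⟩
  rw [pderiv_joinV, aeval_joinV]
  intro h3
  change ((Polynomial.derivative Q).map φ).eval x = 0 at h3
  have hdeg : 0 < (Q.map φ).natDegree := by
    by_contra hcon
    have h4 : (Q.map φ).natDegree = 0 := by omega
    rw [Polynomial.eq_C_of_natDegree_eq_zero h4, Polynomial.eval_C] at hQx
    apply hQ0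
    rw [Polynomial.eq_C_of_natDegree_eq_zero h4, hQx, map_zero]
  have h5 : (Polynomial.derivative Q).map φ = Polynomial.derivative (Q.map φ) :=
    (Polynomial.derivative_map Q φ).symm
  refine hmin ((Polynomial.derivative Q).map φ).natDegree ?_ ⟨Polynomial.derivative Q, ?_, h3, rfl⟩
  · rw [h5, ← hQn]
    exact Polynomial.natDegree_derivative_lt hdeg.ne'
  · rw [h5]
    intro h6
    exact hdeg.ne' (Polynomial.derivative_eq_zero.1 h6)

end Pool.Agent.N113.SK
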