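import Pool.Agent.N113.SK.Def
import Pool.Agent.N113.SK.Sep

/-!
# Extensions of tuples of points
-/

set_option autoImplicit false

namespace Pool.Agent.N113.SK

open UpperHalfPlane MvPolynomial Module

/-! ### equivalence -/

theorem Eqv.refl (z : ℍ) : Eqv z z := ⟨1, 0, 0, 1, by norm_num, by push_cast; ring⟩

theorem Eqv.symm {z w : ℍ} (h : Eqv z w) : Eqv w z := by
  obtain ⟨a, b, c, d, h1, h2⟩ := h
  refine ⟨d, -b, -c, a, by linarith, ?_⟩
  push_cast
  linear_combination -h2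

theorem Eqv.trans {z w v : ℍ} (h : Eqv z w) (h' : Eqv w v) : Eqv z v := by
  obtain ⟨a, b, c, d, h1, h2⟩ := h
  obtain ⟨a', b', c', d', h3, h4⟩ := h'
  refine ⟨a' * a + b' * c, a' * b + b' * d, c' * a + d' * c, c' * b + d' * d, ?_, ?_⟩
  · have := mul_pos h3 h1
    nlinarith
  · push_cast
    linear_combination ((c : ℂ) * z + d) * h4 - ((v : ℂ) * c' - a') * h2

instance eqvSetoid : Setoid ℍ := ⟨Eqv, Eqv.refl, Eqv.symm, Eqv.trans⟩

/-! ### determined values -/

theorem det_alg {D : ℂ →ₗ[ℚ] ℂ} {x y : ℂ} (hR : Respects D x y)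
    (h : IsAlgebraic (Algebra.adjoin ℚ {y}) x) (hy : D y = 0) : D x = 0 := by
  have h' : IsAlgebraic (Algebra.adjoin ℚ (Set.range fun _ : Unit => y)) x := by
    rw [Set.range_const]
    exact h
  obtain ⟨P, hP, hP'⟩ := sep (fun _ : Unit => y) x h'
  let e : Option Unit → Fin 2 := fun o => o.elim 0 fun _ => 1
  have he : Function.Injective e := by
    rintro (_ | _) (_ | _) h1
    · rfl
    · change (0 : Fin 2) = 1 at h1
      exact absurd h1 (by decide)
    · change (1 : Fin 2) = 0 at h1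
      exact absurd h1 (by decide)
    · rfl
  have hc : ![x, y] ∘ e = fun o : Option Unit => o.elim x fun _ => y := by
    funext o
    rcases o with _ | _ <;> rfl
  have h1 := hR (rename e P) (by rw [aeval_rename, hc]; exact hP)
  have h2 : (0 : Fin 2) = e none := rfl
  rw [h2, pderiv_rename he, aeval_rename, hc, hy, mul_zero, add_zero] at h1
  exact (mul_eq_zero.1 h1).resolve_left hP'

theorem det_alg0 {D : ℂ →ₗ[ℚ] ℂ} {x y : ℂ} (hR : Respects D x y) (h : IsAlgebraic ℚ x) :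
    D x = 0 := by
  have h0 : IsIntegral ℚ x := h.isIntegral
  have h1 := hR (Polynomial.aeval (X 0) (minpoly ℚ x)) (by
    rw [← Polynomial.aeval_algHom_apply, aeval_X]
    exact minpoly.aeval ℚ x)
  have hs : (minpoly ℚ x).Separable := (minpoly.irreducible h0).separable
  have h2 : Polynomial.aeval x (Polynomial.derivative (minpoly ℚ x)) ≠ 0 :=
    hs.aeval_derivative_ne_zero (minpoly.aeval ℚ x)
  rw [Derivation.map_aeval, Derivation.map_aeval, pderiv_X_self, pderiv_X, Pi.single_eq_of_ne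
    (by decide), smul_zero, map_zero, zero_mul, add_zero, smul_eq_mul, mul_one,
    ← Polynomial.aeval_algHom_apply, aeval_X] at h1
  exact (mul_eq_zero.1 h1).resolve_left h2

theorem mob {D : ℂ →ₗ[ℚ] ℂ} {z w : ℂ} {a b c d : ℚ} (h : w * (c * z + d) = a * z + b)
    (hR : Respects D z w) : D w * (c * z + d) + w * (c * D z) = a * D z := by
  have h1 := hR (X 1 * (C c * X 0 + C d) - (C a * X 0 + C b)) (by
    simp only [map_sub, map_mul, map_add, aeval_X, aeval_C, eq_ratCast]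
    exact sub_eq_zero.2 h)
  simp [pderiv_X] at h1
  linear_combination h1

/-! ### tuples -/

/-- tuples of points -/
structure Tup where
  κ : Type
  [fin : Fintype κ]
  z : κ → ℍ

attribute [instance] Tup.fin

/-- the orbits of the points which are not CM -/
def cls (A : Tup) : Set (Quotient eqvSetoid) := {c | ∃ i, ¬ CM (A.z i) ∧ c = ⟦A.z i⟧}

theorem cls_finite (A : Tup) : (cls A).Finite :=
  (Set.finite_range fun i => (⟦A.z i⟧ : Quotient eqvSetoid)).subset (by
    rintro _ ⟨i, -, rfl⟩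
    exact ⟨i, rfl⟩)

/-- the number of orbits of points which are not CM -/
noncomputable def rk (A : Tup) : ℕ := (cls A).ncard

theorem rk_mono {A B : Tup} {g : A.κ → B.κ} (hg : ∀ i, B.z (g i) = A.z i) : rk A ≤ rk B :=
  Set.ncard_le_ncard (by
    rintro _ ⟨i, hi, rfl⟩
    exact ⟨g i, by rw [hg]; exact hi, by rw [hg]⟩) (cls_finite B)

variable (f : ℍ → ℂ)

variable {f} in
theorem Adm.comp {A B : Tup} {g : A.κ → B.κ} (hg : ∀ i, B.z (g i) = A.z i) {D : ℂ →ₗ[ℚ] ℂ}
    (h : Adm f B.z D) : Adm f A.z D := by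
  refine ⟨h.one, fun i k hik => ?_, fun i k hik => ?_⟩
  · rw [← hg i, ← hg k]
    exact h.pts _ _ (by rw [hg, hg]; exact hik)
  · rw [← hg i, ← hg k]
    exact h.vals _ _ (by rw [hg, hg]; exact hik)

theorem co_comp {A B : Tup} {g : A.κ → B.κ} (hg : ∀ i, B.z (g i) = A.z i) (x : A.κ ⊕ A.κ) :
    co f B.z (Sum.map g g x) = co f A.z x := by
  rcases x with i | i
  · exact congrArg (fun t : ℍ => (t : ℂ)) (hg i)
  · exact congrArg f (hg i)

/-- the vectors which vanish on a part of the tuple -/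
noncomputable def Ker (B : Tup) {κ : Type} (g : κ → B.κ) : Submodule ℂ (B.κ ⊕ B.κ → ℂ) :=
  Der f B.z ⊓ LinearMap.ker (LinearMap.funLeft ℂ ℂ (Sum.map g g))

theorem mem_Ker {A B : Tup} {g : A.κ → B.κ} (hg : ∀ i, B.z (g i) = A.z i) (v : B.κ ⊕ B.κ → ℂ) :
    v ∈ Ker f B g ↔ ∃ D : ℂ →ₗ[ℚ] ℂ, Adm f B.z D ∧ (v = fun x => D (co f B.z x)) ∧
      ∀ x, D (co f A.z x) = 0 := by
  constructor
  · rintro ⟨⟨D, hD, rfl⟩, h2⟩
    refine ⟨D, hD, rfl, fun x => ?_⟩
    have h3 := congrFun (LinearMap.mem_ker.1 h2) x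
    rw [LinearMap.funLeft_apply, co_comp f hg] at h3
    exact h3
  · rintro ⟨D, hD, rfl, h⟩
    refine ⟨⟨D, hD, rfl⟩, LinearMap.mem_ker.2 (funext fun x => ?_)⟩
    rw [LinearMap.funLeft_apply, co_comp f hg]
    exact h x

/-- extensions of tuples for which the space of vectors does not grow faster than the number of
orbits -/
def Ext (A B : Tup) : Prop :=
  ∃ g : A.κ → B.κ, (∀ i, B.z (g i) = A.z i) ∧ finrank ℂ (Ker f B g) + rk A ≤ rk B

theorem Ext.refl (A : Tup) : Ext f A A := by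
  refine ⟨id, fun _ => rfl, ?_⟩
  have h1 : Ker f A (id : A.κ → A.κ) = ⊥ := by
    rw [eq_bot_iff]
    rintro v ⟨-, h⟩
    rw [Submodule.mem_bot]
    funext x
    have h2 := congrFun (LinearMap.mem_ker.1 h) x
    rw [LinearMap.funLeft_apply, Sum.map_id_id] at h2
    exact h2
  rw [h1, finrank_bot, zero_add]

variable {f} in
theorem Ext.trans {A B C : Tup} (h : Ext f A B) (h' : Ext f B C) : Ext f A C := by
  obtain ⟨g, hg, h1⟩ := h
  obtain ⟨g', hg', h2⟩ := h'
  have hgg : ∀ i, C.z ((g' ∘ g) i) = A.z i := fun i => by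
    rw [Function.comp_apply, hg', hg]
  refine ⟨g' ∘ g, hgg, ?_⟩
  let L : Ker f C (g' ∘ g) →ₗ[ℂ] (B.κ ⊕ B.κ → ℂ) :=
    (LinearMap.funLeft ℂ ℂ (Sum.map g' g')).domRestrict (Ker f C (g' ∘ g))
  have hL : ∀ v : Ker f C (g' ∘ g), L v = fun x => (v : C.κ ⊕ C.κ → ℂ) (Sum.map g' g' x) :=
    fun v => rfl
  have h3 := L.finrank_range_add_finrank_ker
  have h4 : finrank ℂ (LinearMap.range L) ≤ finrank ℂ (Ker f B g) := by
    refine Submodule.finrank_mono ?_
    rintro _ ⟨v, rfl⟩
    obtain ⟨D, hD, hv, h5⟩ := (mem_Ker f hgg _).1 v.2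
    refine (mem_Ker f hg _).2 ⟨D, hD.comp hg', ?_, h5⟩
    rw [hL, hv]
    funext x
    exact congrArg D (co_comp f hg' x)
  have h5 : finrank ℂ (LinearMap.ker L) ≤ finrank ℂ (Ker f C g') := by
    rw [← Submodule.finrank_map_subtype_eq]
    refine Submodule.finrank_mono ?_
    rintro _ ⟨v, hv, rfl⟩
    exact ⟨v.2.1, hv⟩
  omega

variable {f} in
theorem Ext.adm {A B : Tup} (h : Ext f A B) {D : ℂ →ₗ[ℚ] ℂ} (hD : Adm f B.z D) : Adm f A.z D := by
  obtain ⟨g, hg, -⟩ := h
  exact hD.comp hg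

/-- one more point -/
abbrev Tup.add (A : Tup) (w : ℍ) : Tup := ⟨Option A.κ, fun o => o.elim w A.z⟩

variable {f} in
/-- **Adding a point.** -/
theorem ext_add (h1 : ∀ z w, Eqv z w → IsAlgebraic (Algebra.adjoin ℚ {f z}) (f w))
    (h2 : ∀ z, CM z → IsAlgebraic ℚ (f z)) (A : Tup) (w : ℍ)
    (h : ∀ D : ℂ →ₗ[ℚ] ℂ, Adm f (A.add w).z D → (∀ x, D (co f A.z x) = 0) → D w = 0) :
    Ext f A (A.add w) := by
  have hg : ∀ i, (A.add w).z (some i) = A.z i := fun _ => rfl
  refine ⟨some, hg, ?_⟩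
  have hker : (CM w ∨ ∃ i, Eqv (A.z i) w) → Ker f (A.add w) (some : A.κ → (A.add w).κ) = ⊥ := by
    intro hcase
    rw [eq_bot_iff]
    intro v hv
    obtain ⟨D, hD, rfl, h0⟩ := (mem_Ker f hg v).1 hv
    have hw := h D hD h0
    have hfw : D (f w) = 0 := by
      rcases hcase with hc | ⟨i, hi⟩
      · exact det_alg0 (hD.vals none none (Eqv.refl w)) (h2 w hc)
      · exact det_alg (hD.vals none (some i) hi.symm) (h1 _ _ hi) (h0 (Sum.inr i))
    rw [Submodule.mem_bot]
    funext x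
    rcases x with (_ | i) | (_ | i)
    · exact hw
    · exact h0 (Sum.inl i)
    · exact hfw
    · exact h0 (Sum.inr i)
  by_cases hcase : CM w ∨ ∃ i, Eqv (A.z i) w
  · rw [hker hcase, finrank_bot, zero_add]
    exact rk_mono hg
  · push Not at hcase
    obtain ⟨hc, hi⟩ := hcase
    have h3 : cls (A.add w) = insert ⟦w⟧ (cls A) := by
      ext c
      constructor
      · rintro ⟨_ | i, h4, rfl⟩
        · exact Set.mem_insert _ _
        · exact Set.mem_insert_of_mem _ ⟨i, h4, rfl⟩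
      · rintro (rfl | ⟨i, h4, rfl⟩)
        · exact ⟨none, hc, rfl⟩
        · exact ⟨some i, h4, rfl⟩
    have h4 : ⟦w⟧ ∉ cls A := by
      rintro ⟨i, -, h5⟩
      exact hi i (Quotient.exact h5.symm)
    have h5 : rk (A.add w) = rk A + 1 := by
      rw [rk, h3, Set.ncard_insert_of_notMem h4 (cls_finite A)]
      rfl
    have h6 : finrank ℂ (Ker f (A.add w) (some : A.κ → (A.add w).κ)) ≤ 1 := by
      let φ : Ker f (A.add w) (some : A.κ → (A.add w).κ) →ₗ[ℂ] ℂ :=
        (LinearMap.proj (Sum.inr none : (A.add w).κ ⊕ (A.add w).κ)).domRestrict _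
      have hφ : Function.Injective φ := by
        rw [← LinearMap.ker_eq_bot, eq_bot_iff]
        rintro ⟨v, hv⟩ h8
        rw [Submodule.mem_bot]
        apply Subtype.ext
        obtain ⟨D, hD, rfl, h0⟩ := (mem_Ker f hg v).1 hv
        have hw := h D hD h0
        have hfw : D (f w) = 0 := LinearMap.mem_ker.1 h8
        funext x
        rcases x with (_ | i) | (_ | i)
        · exact hw
        · exact h0 (Sum.inl i)
        · exact hfw
        · exact h0 (Sum.inr i)
      exact (LinearMap.finrank_le_finrank_of_injective hφ).trans (finrank_self ℂ).le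
    omega

end Pool.Agent.N113.SK
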