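import Pool.Agent.N113.SK.Main
import Pool.Agent.H294ZP.Main

/-!
# The modular invariant
-/

set_option autoImplicit false

namespace Pool.Agent.N113.SK

open UpperHalfPlane

theorem isAlgebraic_of_int {x y : ℂ} (h : IsIntegral (Algebra.adjoin ℤ {y}) x) :
    IsAlgebraic (Algebra.adjoin ℚ {y}) x := by
  have hle : ∀ t ∈ Algebra.adjoin ℤ {y}, t ∈ Algebra.adjoin ℚ {y} := by
    intro t ht
    induction ht using Algebra.adjoin_induction with
    | mem t ht => exact Algebra.subset_adjoin ht
    | algebraMap r =>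
      have : (algebraMap ℤ ℂ r) = algebraMap ℚ ℂ (r : ℚ) := by simp
      rw [this]
      exact Subalgebra.algebraMap_mem _ _
    | add a b _ _ ha hb => exact add_mem ha hb
    | mul a b _ _ ha hb => exact mul_mem ha hb
  let φ : Algebra.adjoin ℤ {y} →+* Algebra.adjoin ℚ {y} :=
    (algebraMap (Algebra.adjoin ℤ {y}) ℂ).codRestrict (Algebra.adjoin ℚ {y}) fun t => hle t t.2
  have hφ : (algebraMap (Algebra.adjoin ℚ {y}) ℂ).comp φ = algebraMap (Algebra.adjoin ℤ {y}) ℂ :=
    RingHom.ext fun t => rfl
  obtain ⟨p, hp, hpx⟩ := h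
  refine ⟨p.map φ, (hp.map φ).ne_zero, ?_⟩
  rw [Polynomial.aeval_def, Polynomial.eval₂_map, hφ]
  exact hpx

theorem fn_jj : Fn H294ZP.jj := by
  constructor
  · intro z w ⟨a, b, c, d, h1, h2⟩
    let N : ℕ := a.den * b.den * c.den * d.den
    have hN : 0 < N := by positivity
    have hq : ∀ q : ℚ, q.den ∣ N → ∃ k : ℤ, (k : ℚ) = N * q := by
      rintro q ⟨m, hm⟩
      refine ⟨q.num * m, ?_⟩
      rw [hm]
      push_cast
      have := Rat.mul_den_eq_num q
      linear_combination (-(m : ℚ)) * this
    obtain ⟨a', ha'⟩ := hq a ⟨b.den * c.den * d.den, by simp only [N]; ring⟩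
    obtain ⟨b', hb'⟩ := hq b ⟨a.den * c.den * d.den, by simp only [N]; ring⟩
    obtain ⟨c', hc'⟩ := hq c ⟨a.den * b.den * d.den, by simp only [N]; ring⟩
    obtain ⟨d', hd'⟩ := hq d ⟨a.den * b.den * c.den, by simp only [N]; ring⟩
    have hNq : (0 : ℚ) < N := by exact_mod_cast hN
    have h3 : 0 < a' * d' - b' * c' := by
      have h4 : ((a' * d' - b' * c' : ℤ) : ℚ) = N ^ 2 * (a * d - b * c) := by
        push_cast
        rw [ha', hb', hc', hd']
        ring
      have h5 : (0 : ℚ) < ((a' * d' - b' * c' : ℤ) : ℚ) := by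
        rw [h4]
        positivity
      exact_mod_cast h5
    have hC : ∀ (k : ℤ) (q : ℚ), (k : ℚ) = N * q → (k : ℂ) = N * q := by
      intro k q h
      have := congrArg (Rat.cast : ℚ → ℂ) h
      push_cast at this
      exact this
    refine isAlgebraic_of_int (H294ZP.isogenous_integral z w a' b' c' d' h3 ?_)
    rw [hC _ _ ha', hC _ _ hb', hC _ _ hc', hC _ _ hd']
    linear_combination (N : ℂ) * h2
  · intro z ⟨a, b, c, h1, h2⟩
    have ha : a ≠ 0 := by
      intro ha
      subst ha
      have h3 := congrArg Complex.im h2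
      simp only [Int.cast_zero, zero_mul, zero_add, Complex.add_im, Complex.mul_im,
        Complex.intCast_re, Complex.intCast_im, add_zero, Complex.zero_im, mul_eq_zero] at h3
      have hb : b = 0 := by
        rcases h3 with h3 | h3
        · exact_mod_cast h3
        · exact absurd h3 z.im_pos.ne'
      subst hb
      simp only [Int.cast_zero, zero_mul, zero_add, add_zero] at h2
      have hc : c = 0 := by exact_mod_cast h2
      simp [hc] at h1
    have h4 : IsIntegral ℤ (H294ZP.jj z) :=
      H294ZP.singular_modulus_integral z ⟨a, b, c, ha, h2⟩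
    have h5 : IsIntegral ℚ (H294ZP.jj z) := h4.tower_top
    exact h5.isAlgebraic

end Pool.Agent.N113.SK
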