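import Pool.Agent.N113.SK.Sq

/-!
# The chain rule for all polynomials in the coordinates, after an extension
-/

set_option autoImplicit false

namespace Pool.Agent.N113.SK

open UpperHalfPlane MvPolynomial Module

variable {f : ℍ → ℂ}

/-- after an extension, every admissible map takes at `x` the value given by the vector `c` -/
def Rz (f : ℍ → ℂ) (A : Tup) (x : ℂ) (c : A.κ ⊕ A.κ → ℂ) : Prop :=
  ∀ B, Ext f A B → ∃ C, Ext f B C ∧ ∀ D : ℂ →ₗ[ℚ] ℂ, Adm f C.z D →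
    D x = ∑ y, c y * D (co f A.z y)

theorem Rz.const (A : Tup) (q : ℚ) : Rz f A q 0 := fun B _ => ⟨B, Ext.refl f B, fun D hD => by
  have h1 : (q : ℂ) = q • (1 : ℂ) := by rw [Rat.smul_def, mul_one]
  rw [h1, map_smul, hD.one, smul_zero]
  simp⟩

theorem Rz.coord (A : Tup) [DecidableEq (A.κ ⊕ A.κ)] (y : A.κ ⊕ A.κ) :
    Rz f A (co f A.z y) (Pi.single y 1) := fun B _ => ⟨B, Ext.refl f B, fun D _ => by
  rw [Finset.sum_eq_single y]
  · rw [Pi.single_eq_same, one_mul]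
  · intro x _ hx
    rw [Pi.single_eq_of_ne hx, zero_mul]
  · intro h
    exact absurd (Finset.mem_univ _) h⟩

theorem Rz.add {A : Tup} {x y : ℂ} {c d : A.κ ⊕ A.κ → ℂ} (hx : Rz f A x c) (hy : Rz f A y d) :
    Rz f A (x + y) (c + d) := fun B hB => by
  obtain ⟨C, hC, h1⟩ := hx B hB
  obtain ⟨C', hC', h2⟩ := hy C (hB.trans hC)
  refine ⟨C', hC.trans hC', fun D hD => ?_⟩
  rw [map_add, h1 D (hC'.adm hD), h2 D hD, ← Finset.sum_add_distrib]
  exact Finset.sum_congr rfl fun i _ => by rw [Pi.add_apply, add_mul]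

theorem Rz.smul {A : Tup} {x : ℂ} {c : A.κ ⊕ A.κ → ℂ} (hx : Rz f A x c) (q : ℚ) :
    Rz f A (q * x) ((q : ℂ) • c) := fun B hB => by
  obtain ⟨C, hC, h1⟩ := hx B hB
  refine ⟨C, hC, fun D hD => ?_⟩
  rw [← Rat.smul_def, map_smul, h1 D hD, Rat.smul_def, Finset.mul_sum]
  exact Finset.sum_congr rfl fun i _ => by rw [Pi.smul_apply, smul_eq_mul, mul_assoc]

theorem Rz.congr {A : Tup} {x y : ℂ} {c d : A.κ ⊕ A.κ → ℂ} (hx : Rz f A x c) (h1 : x = y)
    (h2 : c = d) : Rz f A y d := by rw [← h1, ← h2]; exact hx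

theorem I_cm : CM UpperHalfPlane.I := ⟨1, 0, 1, Or.inl one_ne_zero, by
  rw [UpperHalfPlane.coe_I, Complex.I_sq]
  push_cast
  ring⟩

theorem D_I {A : Tup} {i : A.κ} (hi : A.z i = UpperHalfPlane.I) {D : ℂ →ₗ[ℚ] ℂ}
    (hD : Adm f A.z D) : D Complex.I = 0 := by
  have h1 := hD.pts i i (Eqv.refl _)
  rw [hi, UpperHalfPlane.coe_I] at h1
  refine det_alg0 h1 ?_
  refine ⟨Polynomial.X ^ 2 + 1, ?_, by simp⟩
  intro h
  have h2 := congrArg (Polynomial.eval 0) h
  simp at h2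

/-- **Squares.** -/
theorem Rz.sq (hf : Fn f) {A : Tup} {x : ℂ} {c : A.κ ⊕ A.κ → ℂ} (hx : Rz f A x c) :
    Rz f A (x ^ 2) ((2 * x) • c) := fun B hB => by
  obtain ⟨C, hC, h1⟩ := hx B hB
  let C1 := C.add UpperHalfPlane.I
  have hC1 : Ext f C C1 := ext_add hf.eqv hf.cm C _ fun D hD _ => by
    rw [UpperHalfPlane.coe_I]
    exact D_I (A := C.add UpperHalfPlane.I) (i := none) rfl hD
  obtain ⟨m, hm⟩ := exists_nat_gt (|x.im|)
  have hm1 := abs_lt.1 hm
  let u : ℍ := ⟨m * Complex.I + x, by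
    rw [Complex.add_im, ← Complex.ofReal_natCast, Complex.im_ofReal_mul, Complex.I_im, mul_one]
    linarith⟩
  let v : ℍ := ⟨m * Complex.I - x, by
    rw [Complex.sub_im, ← Complex.ofReal_natCast, Complex.im_ofReal_mul, Complex.I_im, mul_one]
    linarith⟩
  have hu : (u : ℂ) = m * Complex.I + x := rfl
  have hv : (v : ℂ) = m * Complex.I - x := rfl
  have hnI : ∀ D : ℂ →ₗ[ℚ] ℂ, Adm f C1.z D → D (m * Complex.I) = 0 := by
    intro D hD
    have h2 : (m : ℂ) * Complex.I = (m : ℚ) • Complex.I := by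
      rw [Rat.smul_def]
      push_cast
      rfl
    rw [h2, map_smul, D_I (A := C1) (i := none) rfl hD, smul_zero]
  have hDu : ∀ D : ℂ →ₗ[ℚ] ℂ, Adm f C1.z D → D u = D x := by
    intro D hD
    rw [hu, map_add, hnI D hD, zero_add]
  have hDv : ∀ D : ℂ →ₗ[ℚ] ℂ, Adm f C1.z D → D v = -D x := by
    intro D hD
    rw [hv, map_sub, hnI D hD, zero_sub]
  have hA : Ext f A C1 := (hB.trans hC).trans hC1
  have hx0 : ∀ E, Ext f C1 E → ∀ D : ℂ →ₗ[ℚ] ℂ, Adm f E.z D → (∀ y, D (co f E.z y) = 0) →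
      D x = 0 := by
    intro E hE D hD h0
    rw [h1 D (hC1.adm (hE.adm hD))]
    refine Finset.sum_eq_zero fun y _ => ?_
    rw [(hA.trans hE).vanish h0 y, mul_zero]
  obtain ⟨C2, hC2, h2⟩ := ext_sq hf C1 u fun D hD h0 => by
    rw [hDu D hD]
    exact hx0 C1 (Ext.refl f C1) D hD h0
  obtain ⟨C3, hC3, h3⟩ := ext_sq hf C2 v fun D hD h0 => by
    rw [hDv D (hC2.adm hD), hx0 C2 hC2 D hD h0, neg_zero]
  refine ⟨C3, hC.trans ((hC1.trans hC2).trans hC3), fun D hD => ?_⟩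
  have e1 : x ^ 2 = (1 / 2 : ℚ) • ((u : ℂ) ^ 2 + (v : ℂ) ^ 2) + (m : ℚ) ^ 2 • (1 : ℂ) := by
    rw [hu, hv, Rat.smul_def, Rat.smul_def]
    push_cast
    linear_combination (-(m : ℂ) ^ 2) * Complex.I_sq
  have hD1 : Adm f C1.z D := hC2.adm (hC3.adm hD)
  rw [e1, map_add, map_smul, map_smul, map_add, h2 D (hC3.adm hD), h3 D hD, hD.one, smul_zero,
    add_zero, hDu D hD1, hDv D hD1, h1 D (hC1.adm hD1), Rat.smul_def, hu, hv]
  simp only [Pi.smul_apply, smul_eq_mul, mul_assoc, ← Finset.mul_sum]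
  push_cast
  ring

/-- **Products.** -/
theorem Rz.mul (hf : Fn f) {A : Tup} {x y : ℂ} {c d : A.κ ⊕ A.κ → ℂ} (hx : Rz f A x c)
    (hy : Rz f A y d) : Rz f A (x * y) (x • d + y • c) := by
  have h1 := ((hx.add hy).sq hf).smul (1 / 2)
  have h2 := (hx.sq hf).smul (-(1 / 2))
  have h3 := (hy.sq hf).smul (-(1 / 2))
  refine ((h1.add h2).add h3).congr ?_ ?_
  · push_cast
    ring
  · funext i
    simp only [Pi.add_apply, Pi.smul_apply, smul_eq_mul]
    push_cast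
    ring

/-- **The chain rule.** -/
theorem Rz.poly (hf : Fn f) (A : Tup) (P : MvPolynomial (A.κ ⊕ A.κ) ℚ) :
    Rz f A (aeval (co f A.z) P) fun y => aeval (co f A.z) (pderiv y P) := by
  classical
  induction P using MvPolynomial.induction_on with
  | C q =>
    refine (Rz.const A q).congr (by rw [aeval_C, eq_ratCast]) ?_
    funext y
    rw [pderiv_C, map_zero]
    rfl
  | add p q hp hq =>
    refine (hp.add hq).congr (by rw [map_add]) ?_
    funext y
    rw [map_add, map_add]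
    rfl
  | mul_X p i hp =>
    refine (hp.mul hf (Rz.coord A i)).congr (by rw [map_mul, aeval_X]) ?_
    funext y
    rw [pderiv_mul, map_add, map_mul, map_mul, aeval_X, pderiv_X, Pi.add_apply, Pi.smul_apply,
      Pi.smul_apply, smul_eq_mul, smul_eq_mul]
    by_cases h : i = y
    · subst h
      rw [Pi.single_eq_same, Pi.single_eq_same, map_one]
      ring
    · rw [Pi.single_eq_of_ne (Ne.symm h), Pi.single_eq_of_ne h, map_zero]
      ring

/-- finitely many polynomials -/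
theorem Rz.polys (hf : Fn f) (A : Tup) {τ : Type} (t : Finset τ)
    (P : τ → MvPolynomial (A.κ ⊕ A.κ) ℚ) :
    ∃ C, Ext f A C ∧ ∀ D : ℂ →ₗ[ℚ] ℂ, Adm f C.z D → ∀ j ∈ t,
      D (aeval (co f A.z) (P j)) = ∑ y, aeval (co f A.z) (pderiv y (P j)) * D (co f A.z y) := by
  classical
  induction t using Finset.induction_on with
  | empty => exact ⟨A, Ext.refl f A, fun D _ j hj => absurd hj (Finset.notMem_empty j)⟩
  | insert a t _ ih =>
    obtain ⟨B, hB, h1⟩ := ih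
    obtain ⟨C, hC, h2⟩ := Rz.poly hf A (P a) B hB
    refine ⟨C, hB.trans hC, fun D hD j hj => ?_⟩
    rcases Finset.mem_insert.1 hj with rfl | hj
    · exact h2 D hD
    · exact h1 D (hC.adm hD) j hj

end Pool.Agent.N113.SK
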