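import Pool.Agent.N113.SK.Ext

/-!
# The product rule for all polynomials in the coordinates, from extensions
-/

set_option autoImplicit false

namespace Pool.Agent.N113.SK

open UpperHalfPlane MvPolynomial Module

variable (f : ℍ → ℂ)

/-- the properties of the function `f` -/
structure Fn : Prop where
  eqv : ∀ z w, Eqv z w → IsAlgebraic (Algebra.adjoin ℚ {f z}) (f w)
  cm : ∀ z, CM z → IsAlgebraic ℚ (f z)

variable {f}

theorem Ext.vanish {A B : Tup} (h : Ext f A B) {D : ℂ →ₗ[ℚ] ℂ} (hD : ∀ x, D (co f B.z x) = 0)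
    (x : A.κ ⊕ A.κ) : D (co f A.z x) = 0 := by
  obtain ⟨g, hg, -⟩ := h
  rw [← co_comp f hg]
  exact hD _

theorem den_ne (z : ℍ) {a b c d : ℚ} (h : 0 < a * d - b * c) : (c : ℂ) * z + d ≠ 0 := by
  intro h1
  have h2 := congrArg Complex.im h1
  simp only [Complex.add_im, Complex.mul_im, Complex.ratCast_re, Complex.ratCast_im, zero_mul,
    add_zero, Complex.zero_im, mul_eq_zero] at h2
  have hc : c = 0 := by
    rcases h2 with h2 | h2
    · exact_mod_cast h2
    · exact absurd h2 z.im_pos.ne'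
  subst hc
  rw [Rat.cast_zero, zero_mul, zero_add] at h1
  have hd : d = 0 := by exact_mod_cast h1
  subst hd
  simp at h

/-- adding a point which is equivalent to a point of the tuple -/
theorem ext_eqv (hf : Fn f) (A : Tup) (i : A.κ) {w : ℍ} (h : Eqv (A.z i) w) :
    Ext f A (A.add w) := by
  refine ext_add hf.eqv hf.cm A w fun D hD h0 => ?_
  obtain ⟨a, b, c, d, h1, h2⟩ := h
  have h3 := mob h2 (hD.pts (some i) none ⟨a, b, c, d, h1, h2⟩)
  have h4 : D (A.z i) = 0 := h0 (Sum.inl i)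
  rw [h4, mul_zero, mul_zero, mul_zero, add_zero] at h3
  exact (mul_eq_zero.1 h3).resolve_right (den_ne _ h1)

/-- the point `-1 / z` -/
noncomputable def ng (z : ℍ) : ℍ := ⟨(-z : ℂ)⁻¹, im_inv_neg_coe_pos z⟩

theorem ng_mul (z : ℍ) : (ng z : ℂ) * z = -1 := by
  have h1 : (z : ℂ) ≠ 0 := z.ne_zero
  change (-z : ℂ)⁻¹ * z = -1
  rw [inv_neg, neg_mul, inv_mul_cancel₀ h1]

/-- the point `z + c` -/
def sh (z : ℍ) (c : ℚ) : ℍ := ⟨(z : ℂ) + c, by simpa using z.im_pos⟩

theorem eqv_ng (z : ℍ) : Eqv z (ng z) := by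
  refine ⟨0, -1, 1, 0, by norm_num, ?_⟩
  push_cast
  linear_combination ng_mul z

theorem eqv_ng_sh (z : ℍ) (c : ℚ) : Eqv z (ng (sh z c)) := by
  refine ⟨0, -1, 1, c, by norm_num, ?_⟩
  have h1 := ng_mul (sh z c)
  have h2 : ((sh z c : ℍ) : ℂ) = z + c := rfl
  rw [h2] at h1
  push_cast
  linear_combination h1

theorem mob_ng {D : ℂ →ₗ[ℚ] ℂ} {z : ℍ} (hR : Respects D z (ng z)) :
    D (ng z) * z + ng z * D z = 0 := by
  have h1 : (ng z : ℂ) * ((1 : ℚ) * (z : ℂ) + (0 : ℚ)) = (0 : ℚ) * (z : ℂ) + (-1 : ℚ) := by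
    push_cast
    linear_combination ng_mul z
  have h2 := mob h1 hR
  push_cast at h2
  linear_combination h2

theorem mob_ng_sh {D : ℂ →ₗ[ℚ] ℂ} {z : ℍ} {c : ℚ} (hR : Respects D z (ng (sh z c))) :
    D (ng (sh z c)) * (z + c) + ng (sh z c) * D z = 0 := by
  have h1 : (ng (sh z c) : ℂ) * ((1 : ℚ) * (z : ℂ) + (c : ℚ)) = (0 : ℚ) * (z : ℂ) + (-1 : ℚ) := by
    have h1 := ng_mul (sh z c)
    have h2 : ((sh z c : ℍ) : ℂ) = z + c := rfl
    rw [h2] at h1
    push_cast
    linear_combination h1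
  have h2 := mob h1 hR
  push_cast at h2
  linear_combination h2

/-- **Squares of points.** -/
theorem ext_sq (hf : Fn f) (A : Tup) (u : ℍ)
    (h : ∀ D : ℂ →ₗ[ℚ] ℂ, Adm f A.z D → (∀ x, D (co f A.z x) = 0) → D u = 0) :
    ∃ B, Ext f A B ∧ ∀ D : ℂ →ₗ[ℚ] ℂ, Adm f B.z D → D ((u : ℂ) ^ 2) = 2 * u * D u := by
  -- the shift
  obtain ⟨c, hc0, hc⟩ : ∃ c : ℚ, c ≠ 0 ∧ ((u : ℂ) * (u + c)).im ≠ 0 := by
    by_cases h1 : ((u : ℂ) * (u + (1 : ℚ))).im = 0
    · refine ⟨2, two_ne_zero, fun h2 => ?_⟩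
      have h3 : ((u : ℂ) * (u + (2 : ℚ))).im - ((u : ℂ) * (u + (1 : ℚ))).im = (u : ℂ).im := by
        simp only [Complex.mul_im, Complex.add_re, Complex.add_im, Complex.ratCast_re,
          Complex.ratCast_im]
        push_cast
        ring
      rw [h1, h2, sub_zero] at h3
      exact u.im_pos.ne h3
    · exact ⟨1, one_ne_zero, h1⟩
  have hcC : (c : ℂ) ≠ 0 := by exact_mod_cast hc0
  let b := ng u
  let b' := ng (sh u c)
  have hb : (b : ℂ) * u = -1 := ng_mul u
  have hb' : (b' : ℂ) * (u + c) = -1 := ng_mul (sh u c)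
  have hu0 : (u : ℂ) ≠ 0 := u.ne_zero
  have huc0 : (u : ℂ) + c ≠ 0 := (sh u c).ne_zero
  have ht : ((b' : ℂ) - b) * (u * (u + c)) = c := by linear_combination u * hb' - (u + c) * hb
  have htim : ((b' : ℂ) - b).im ≠ 0 := by
    intro h1
    have h2 : ((b' : ℂ) - b) = ((((b' : ℂ) - b).re : ℝ) : ℂ) := by
      apply Complex.ext
      · simp
      · rw [h1, Complex.ofReal_im]
    have h3 := congrArg Complex.im ht
    rw [h2, Complex.im_ofReal_mul, Complex.ratCast_im] at h3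
    rcases mul_eq_zero.1 h3 with h4 | h4
    · rw [h4, Complex.ofReal_zero] at h2
      rw [h2, zero_mul] at ht
      exact hcC ht.symm
    · exact hc h4
  -- the sign
  obtain ⟨ε, hε, hεim⟩ : ∃ ε : ℚ, ε ^ 2 = 1 ∧ 0 < ((ε : ℂ) * ((b' : ℂ) - b)).im := by
    rcases lt_or_gt_of_ne htim with h1 | h1
    · refine ⟨-1, by norm_num, ?_⟩
      push_cast
      rw [neg_one_mul, Complex.neg_im]
      linarith
    · refine ⟨1, by norm_num, ?_⟩
      push_cast
      rw [one_mul]
      exact h1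
  let e : ℍ := ⟨(ε : ℂ) * ((b' : ℂ) - b), hεim⟩
  have he : (e : ℂ) = ε * ((b' : ℂ) - b) := rfl
  let k := ng e
  have hk : (k : ℂ) * e = -1 := ng_mul e
  let A1 := A.add u
  let A2 := A1.add b
  let A3 := A2.add b'
  let A4 := A3.add e
  let A5 := A4.add k
  have h1 : Ext f A A1 := ext_add hf.eqv hf.cm A u fun D hD h0 =>
    h D (hD.comp (A := A) (g := some) fun _ => rfl) h0
  have h2 : Ext f A1 A2 := ext_eqv hf A1 none (eqv_ng u)
  have h3 : Ext f A2 A3 := ext_eqv hf A2 (some none) (eqv_ng_sh u c)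
  have h4 : Ext f A3 A4 := ext_add hf.eqv hf.cm A3 e fun D hD h0 => by
    have h5 : D b' = 0 := h0 (Sum.inl none)
    have h6 : D b = 0 := h0 (Sum.inl (some none))
    have h7 : (e : ℂ) = ε • ((b' : ℂ) - b) := by rw [he, Rat.smul_def]
    rw [h7, map_smul, map_sub, h5, h6, sub_zero, smul_zero]
  have h5 : Ext f A4 A5 := ext_eqv hf A4 none (eqv_ng e)
  refine ⟨A5, (((h1.trans h2).trans h3).trans h4).trans h5, fun D hD => ?_⟩
  have hDb := mob_ng (hD.pts (some (some (some (some none)))) (some (some (some none)))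
    (eqv_ng u))
  have hDb' := mob_ng_sh (hD.pts (some (some (some (some none)))) (some (some none))
    (eqv_ng_sh u c))
  have hDk := mob_ng (hD.pts (some none) none (eqv_ng e))
  change D b * u + b * D u = 0 at hDb
  change D b' * (u + c) + b' * D u = 0 at hDb'
  change D k * e + k * D e = 0 at hDk
  have hDe : D e = ε * (D b' - D b) := by
    have h7 : (e : ℂ) = ε • ((b' : ℂ) - b) := by rw [he, Rat.smul_def]
    rw [h7, map_smul, map_sub, Rat.smul_def]
  have hεC : (ε : ℂ) ^ 2 = 1 := by exact_mod_cast hε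
  have he0 : (e : ℂ) ≠ 0 := e.ne_zero
  have hkk : (u : ℂ) * (u + c) = -(c * ε * k) := by
    have h6 : (e : ℂ) * (u * (u + c)) = ε * c := by rw [he]; linear_combination (ε : ℂ) * ht
    refine mul_left_cancel₀ he0 ?_
    rw [h6]
    linear_combination (c * ε : ℂ) * hk
  have hu2 : (u : ℂ) ^ 2 = (-(c * ε)) • (k : ℂ) + (-c) • (u : ℂ) := by
    rw [Rat.smul_def, Rat.smul_def]
    push_cast
    linear_combination hkk
  rw [hu2, map_add, map_smul, map_smul, Rat.smul_def, Rat.smul_def]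
  push_cast
  have hDb1 : D b = b ^ 2 * D u := by
    refine mul_right_cancel₀ hu0 ?_
    linear_combination hDb - b * D u * hb
  have hDb1' : D b' = b' ^ 2 * D u := by
    refine mul_right_cancel₀ huc0 ?_
    linear_combination hDb' - b' * D u * hb'
  have hDk1 : D k = -(k * (b' + b)) * D u := by
    refine mul_right_cancel₀ he0 ?_
    rw [hDb1, hDb1'] at hDe
    rw [hDe] at hDk
    rw [he] at hDk ⊢
    linear_combination hDk
  rw [hDk1]
  have h8 : (c : ℂ) * ε * k * (b' + b) = 2 * u + c := by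
    have h9 : (c : ℂ) * ε * k = -(u * (u + c)) := by rw [hkk]; ring
    rw [h9]
    linear_combination -(u : ℂ) * hb' - (u + c) * hb
  linear_combination D u * h8

end Pool.Agent.N113.SK
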